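import Pool.Agent.X239.SD.Main

/-! MP_3abf0f_al, Q1: full (affirmative) answer, with explicit listings for every `n ≥ 4`. -/

namespace Pool.Agent.Results.MP_3abf0f_al.AllHarmonious

open Pool.Agent.X239.SD

/-- **Q1: yes.** For every `n ≥ 4` the semidihedral group
`⟨a, b | a^{2^{n-1}} = b² = 1, b a b⁻¹ = a^{2^{n-2}-1}⟩` (given as a presented group, of order
`2^n`) is harmonious. -/
theorem result : ∀ n : ℕ, 4 ≤ n →
    Nat.card (SemiDih n) = 2 ^ n ∧ Harmonious (SemiDih n) :=
  main

end Pool.Agent.Results.MP_3abf0f_al.AllHarmonious
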